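import Pool.Agent.U737.MN.Stm3
import Pool.Agent.U810.MN.WrIff

/-!
Project MN (helper737), package BackL (helper446): Kummer extensions of degree `ℓ` with full normal
closure have Galois group `C_ℓ ≀ H`.
-/

set_option autoImplicit false

open Pool.Agent.U737.MN IntermediateField
open Pool.Agent.TH365.J3099 (act act_apply act_apply_apply ker_act imP imP_eq ncard_imP)
open Pool.Agent.U810.MN (card_emb gal_facts)

namespace Pool.Agent.U446.MN

/-! ### the wreath product -/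

section wr

variable {H X : Type} [Group H] [MulAction H X] {ℓ : ℕ}

/-- the permutation `(x, t) ↦ (h x, c x + t)` -/
def wrG (p : H × (X → ZMod ℓ)) : Equiv.Perm (X × ZMod ℓ) where
  toFun x := (p.1 • x.1, p.2 x.1 + x.2)
  invFun y := (p.1⁻¹ • y.1, y.2 - p.2 (p.1⁻¹ • y.1))
  left_inv x := by simp
  right_inv y := by simp

theorem wrG_injective [FaithfulSMul H X] :
    Function.Injective (wrG (H := H) (X := X) (ℓ := ℓ)) := by
  rintro ⟨h, f⟩ ⟨h', f'⟩ e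
  have e1 : ∀ x : X × ZMod ℓ, wrG (h, f) x = wrG (h', f') x := fun x => by rw [e]
  have h1 : h = h' := by
    apply FaithfulSMul.eq_of_smul_eq_smul (α := X)
    intro x
    exact congrArg Prod.fst (e1 (x, 0))
  subst h1
  have h2 : f = f' := by
    funext x
    have h3 : f x + 0 = f' x + 0 := congrArg Prod.snd (e1 (x, 0))
    simpa using h3
  rw [h2]

theorem range_wrG : Set.range (wrG (H := H) (X := X) (ℓ := ℓ)) = WrL ℓ H X := by
  ext π
  constructor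
  · rintro ⟨⟨h, f⟩, rfl⟩
    exact ⟨h, f, fun x t => rfl⟩
  · rintro ⟨h, c, hh⟩
    refine ⟨(h, c), ?_⟩
    ext1 x
    obtain ⟨x, t⟩ := x
    rw [hh]
    rfl

theorem ncard_WrL [Finite H] [Finite X] [FaithfulSMul H X] :
    (WrL ℓ H X).ncard = ℓ ^ Nat.card X * Nat.card H := by
  classical
  have : Fintype X := Fintype.ofFinite X
  rw [← range_wrG, ← Set.image_univ, Set.ncard_image_of_injective _ wrG_injective,
    Set.ncard_univ, Nat.card_prod, Nat.card_fun, mul_comm, Nat.card_zmod]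

end wr

/-! ### roots of unity -/

theorem pow_iff {Ω : Type} [Field Ω] {ζ : Ω} {ℓ : ℕ} (hℓ : 0 < ℓ) (hζ : IsPrimitiveRoot ζ ℓ)
    (a b : ℕ) : ζ ^ a = ζ ^ b ↔ (a : ZMod ℓ) = (b : ZMod ℓ) := by
  rw [ZMod.natCast_eq_natCast_iff', pow_eq_pow_mod a hζ.pow_eq_one, pow_eq_pow_mod b hζ.pow_eq_one]
  constructor
  · intro h
    exact hζ.pow_inj (Nat.mod_lt _ hℓ) (Nat.mod_lt _ hℓ) h
  · intro h
    rw [h]

/-- two embeddings which agree on `M` and at `s` agree on `M(s)` -/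
theorem ext_emb {K Ω : Type} [Field K] [Field Ω] [Algebra K Ω] (M L : IntermediateField K Ω)
    (s : Ω) (hML : M ≤ L) (hsL : s ∈ L) (hL : L = M ⊔ IntermediateField.adjoin K {s})
    (ψ ψ' : L →ₐ[K] Ω) (h1 : ∀ (x : Ω) (hx : x ∈ M), ψ ⟨x, hML hx⟩ = ψ' ⟨x, hML hx⟩)
    (h2 : ψ ⟨s, hsL⟩ = ψ' ⟨s, hsL⟩) : ψ = ψ' := by
  let E : IntermediateField K L :=
    { AlgHom.equalizer ψ ψ' with
      inv_mem' := by
        intro x hx
        have hx' : ψ x = ψ' x := hx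
        change ψ x⁻¹ = ψ' x⁻¹
        rw [map_inv₀, map_inv₀, hx'] }
  have hE : ∀ x : L, x ∈ E ↔ ψ x = ψ' x := fun x => Iff.rfl
  have hle : L ≤ IntermediateField.lift E := by
    conv_lhs => rw [hL]
    rw [sup_le_iff]
    constructor
    · intro x hx
      exact (IntermediateField.mem_lift (E := E) (⟨x, hML hx⟩ : L)).2 ((hE _).2 (h1 x hx))
    · rw [IntermediateField.adjoin_simple_le_iff]
      exact (IntermediateField.mem_lift (E := E) (⟨s, hsL⟩ : L)).2 ((hE _).2 h2)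
  ext y
  exact (hE y).1 ((IntermediateField.mem_lift (E := E) y).1 (hle y.2))

theorem t_BackL : (Pool.Agent.U737.MN.DegL → Pool.Agent.U737.MN.BackL) := by
  intro hDeg ℓ K Ω _ _ _ _ _ H X _ _ _ _ _ _ _ M L s hℓ hZ hM hKum hN
  obtain ⟨hMfd, eM, heM⟩ := hM
  have hdeg := hDeg ℓ K Ω M L s hℓ hZ hKum
  obtain ⟨hLfd, hLM⟩ := hdeg
  obtain ⟨hsM, hsn, hL⟩ := hKum
  obtain ⟨ζ₀, hζ₀⟩ := hZ
  have i1 : IsAlgClosed Ω := IsAlgClosure.isAlgClosed K
  have i2 : Normal K Ω := IsAlgClosure.normal K Ω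
  have i3 : Algebra.IsAlgebraic K Ω := IsAlgClosure.isAlgebraic
  have i4 : Algebra.IsSeparable K Ω := inferInstance
  have i5 : IsGalois K Ω := ⟨⟩
  have hℓ0 : 0 < ℓ := hℓ.pos
  have i6 : NeZero ℓ := ⟨hℓ0.ne'⟩
  obtain ⟨hMX, hMH⟩ := gal_facts M eM heM
  have hML : M ≤ L := by
    rw [hL]
    exact le_sup_left
  have hsL : s ∈ L := by
    rw [hL]
    exact (le_sup_right : IntermediateField.adjoin K {s} ≤ M ⊔ IntermediateField.adjoin K {s})
      (IntermediateField.mem_adjoin_simple_self K s)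
  have hs0 : s ≠ 0 := by
    rintro rfl
    exact hsn M.zero_mem
  let i : M →ₐ[K] L := IntermediateField.inclusion hML
  let α : M := ⟨s ^ ℓ, hsM⟩
  let sL : L := ⟨s, hsL⟩
  have hα0 : α ≠ 0 := by
    intro h
    exact pow_ne_zero ℓ hs0 (congrArg Subtype.val h)
  have hiα : i α = sL ^ ℓ := Subtype.ext rfl
  -- the Galois action on `X`
  let ρ : (Ω ≃ₐ[K] Ω) →* Equiv.Perm X := eM.permCongrHom.toMonoidHom.comp (act M)
  have hρ : ∀ (σ : Ω ≃ₐ[K] Ω) (ψ : M →ₐ[K] Ω), eM (act M σ ψ) = ρ σ (eM ψ) := by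
    intro σ ψ
    change _ = eM (act M σ (eM.symm (eM ψ)))
    rw [Equiv.symm_apply_apply]
  have hρH : ∀ σ, ∃ a : H, ∀ x, ρ σ x = a • x := fun σ => (heM _).2 ⟨σ, fun ψ => hρ σ ψ⟩
  -- the root of unity
  obtain ⟨ζ, hζdef⟩ : ∃ ζ : Ω, ζ = algebraMap K Ω ζ₀ := ⟨_, rfl⟩
  have hζ : IsPrimitiveRoot ζ ℓ := by
    rw [hζdef]
    exact hζ₀.map_of_injective (algebraMap K Ω).injective
  have hσζ : ∀ σ : Ω ≃ₐ[K] Ω, σ ζ = ζ := by
    intro σ
    rw [hζdef]
    exact σ.commutes ζ₀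
  -- roots of the conjugates of `α`
  have hη : ∀ x : X, ∃ η : Ω, η ^ ℓ = eM.symm x α := fun x => IsAlgClosed.exists_pow_nat_eq _ hℓ0
  choose η hη using hη
  have hη0 : ∀ x, η x ≠ 0 := by
    intro x h
    have h1 := hη x
    rw [h, zero_pow hℓ0.ne'] at h1
    have h2 : eM.symm x α = 0 := h1.symm
    exact hα0 ((map_eq_zero (eM.symm x)).1 h2)
  have root : ∀ (x : X) (z : Ω), z ^ ℓ = eM.symm x α → ∃ k : ℕ, z = ζ ^ k * η x := by
    intro x z hz
    have h1 : (z / η x) ^ ℓ = 1 := by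
      rw [div_pow, hz, hη, div_self]
      rw [← hη]
      exact pow_ne_zero _ (hη0 x)
    obtain ⟨k, -, hk⟩ := hζ.eq_pow_of_pow_eq_one h1
    exact ⟨k, by rw [hk, div_mul_cancel₀ _ (hη0 x)]⟩
  let r : (L →ₐ[K] Ω) → X := fun φ => eM (φ.comp i)
  have hr : ∀ (σ : Ω ≃ₐ[K] Ω) (φ : L →ₐ[K] Ω), r (act L σ φ) = ρ σ (r φ) := by
    intro σ φ
    change eM ((act L σ φ).comp i) = ρ σ (eM (φ.comp i))
    rw [← hρ]
    rfl
  have hψ : ∀ ψ : L →ₐ[K] Ω, ∃ k : ℕ, ψ sL = ζ ^ k * η (r ψ) := by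
    intro ψ
    apply root
    have h1 : eM.symm (r ψ) = ψ.comp i := eM.symm_apply_apply _
    rw [h1, ← map_pow, ← hiα]
    rfl
  choose kk hkk using hψ
  let e0 : (L →ₐ[K] Ω) → X × ZMod ℓ := fun ψ => (r ψ, (kk ψ : ZMod ℓ))
  have he0inj : Function.Injective e0 := by
    intro ψ ψ' h
    have h1 : r ψ = r ψ' := congrArg Prod.fst h
    have h2 : (kk ψ : ZMod ℓ) = (kk ψ' : ZMod ℓ) := congrArg Prod.snd h
    have h3 : ψ.comp i = ψ'.comp i := eM.injective h1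
    refine ext_emb M L s hML hsL hL ψ ψ' ?_ ?_
    · intro x hx
      exact congrArg (fun f : M →ₐ[K] Ω => f ⟨x, hx⟩) h3
    · change ψ sL = ψ' sL
      rw [hkk, hkk, h1, (pow_iff hℓ0 hζ _ _).2 h2]
  have hfin : Finite (L →ₐ[K] Ω) := inferInstance
  have hcL : Nat.card (L →ₐ[K] Ω) = Module.finrank K L := card_emb L
  have hcard : Nat.card (X × ZMod ℓ) ≤ Nat.card (L →ₐ[K] Ω) := by
    rw [hcL, hLM, hMX, Nat.card_prod, Nat.card_zmod, mul_comm]
  have hbij : Function.Bijective e0 := he0inj.bijective_of_nat_card_le hcard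
  let e : (L →ₐ[K] Ω) ≃ X × ZMod ℓ := Equiv.ofBijective e0 hbij
  have he : ∀ ψ, e ψ = (r ψ, (kk ψ : ZMod ℓ)) := fun ψ => rfl
  have hsub : imP L e ⊆ WrL ℓ H X := by
    rintro π ⟨σ, hσ⟩
    obtain ⟨a, ha⟩ := hρH σ
    -- the cocycle
    have hc : ∀ x : X, ∃ k : ℕ, σ (η x) = ζ ^ k * η (a • x) := by
      intro x
      apply root
      rw [← map_pow, hη, ← act_apply_apply]
      congr 1
      rw [Equiv.eq_symm_apply, hρ, Equiv.apply_symm_apply, ha]
    choose c hc using hc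
    refine ⟨a, fun x => (c x : ZMod ℓ), fun x t => ?_⟩
    obtain ⟨ψ, hψe⟩ := e.surjective (x, t)
    rw [← hψe, ← hσ ψ, ← act_apply, he, hr, ha]
    rw [he] at hψe
    have hx : r ψ = x := congrArg Prod.fst hψe
    have ht : (kk ψ : ZMod ℓ) = t := congrArg Prod.snd hψe
    rw [hx]
    refine Prod.ext rfl ?_
    change (kk (act L σ ψ) : ZMod ℓ) = (c x : ZMod ℓ) + t
    rw [← ht, ← Nat.cast_add]
    rw [← pow_iff hℓ0 hζ]
    have h1 : act L σ ψ sL = ζ ^ kk (act L σ ψ) * η (a • x) := by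
      rw [hkk (act L σ ψ), hr, ha, hx]
    have h2 : act L σ ψ sL = ζ ^ (c x + kk ψ) * η (a • x) := by
      rw [act_apply_apply, hkk ψ, hx, map_mul, map_pow, hσζ, hc, pow_add]
      ring
    rw [h1] at h2
    exact mul_right_cancel₀ (hη0 _) h2
  have hfW : (WrL ℓ H X).Finite := Set.toFinite _
  have heq : imP L e = WrL ℓ H X := by
    apply Set.eq_of_subset_of_ncard_le hsub _ hfW
    rw [ncard_imP L e, ncard_WrL]
    change _ ≤ nc L
    rw [hN, hMX, hMH]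
  refine ⟨e, fun π => ?_⟩
  rw [← heq]
  rfl

end Pool.Agent.U446.MN
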